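import Pool.Agent.H7.HD.Targets3

/-!
# Module WA of the proof for MP_e37c09_lc: reflection of null sets
-/

open Ordinal Cardinal Order Set
open scoped ZFSet

universe u

namespace Pool.Agent.H4.HD.WA

open _root_.HD

/-- closure points -/
theorem closure {α : Ordinal.{u}} (hα : ℵ₀ < α.cof)
    (R : Ordinal.{u} → Ordinal.{u} → Prop) (hR : ∀ x < α, ∃ v < α, x < v ∧ R x v)
    (a : Ordinal.{u}) (ha : a < α) :
    ∃ x < α, a < x ∧ ∀ y < x, ∃ w v, y < w ∧ w < v ∧ v < x ∧ R w v := by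
  classical
  choose! G hG1 hG2 hG3 using hR
  set s : ℕ → Ordinal.{u} := fun n => G^[n] a with hs
  have s1 : ∀ n, s n < α := by
    intro n
    induction n with
    | zero => exact ha
    | succ n ih =>
      rw [hs]
      simp only [Function.iterate_succ_apply']
      exact hG1 _ ih
  have s2 : ∀ n, s n < s (n + 1) := by
    intro n
    have h := hG2 _ (s1 n)
    simpa only [hs, Function.iterate_succ_apply'] using h
  have s3 : ∀ n, R (s n) (s (n + 1)) := by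
    intro n
    have h := hG3 _ (s1 n)
    simpa only [hs, Function.iterate_succ_apply'] using h
  have hlt : ∀ n, s n < ⨆ n, s n := fun n =>
    lt_of_lt_of_le (s2 n) (Ordinal.le_iSup s (n + 1))
  refine ⟨⨆ n, s n, ?_, hlt 0, fun y hy => ?_⟩
  · refine Ordinal.lift_iSup_lt_of_lt_cof ?_ s1
    rw [← Ordinal.lift_cof]
    simpa using hα
  · obtain ⟨n, hn⟩ := Ordinal.lt_iSup_iff.1 hy
    exact ⟨s n, s (n + 1), hn, s2 n, hlt _, s3 n⟩

theorem X : T_WA.{u} := by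
  intro μ ν α hα X hX hpos
  have hX' : ∃ C, Clb α C ∧ ∀ b < α, b ∈ C → b ∈ X → ¬ Cf μ b := by
    by_contra hc
    refine hX fun C hC => ?_
    by_contra hc'
    exact hc ⟨C, hC, fun b hb hbC hbX hbμ => hc' ⟨b, hb, hbC, hbX, hbμ⟩⟩
  obtain ⟨C, hC, hCX⟩ := hX'
  have hC' : Clb α {a | 0 < a ∧ ∀ y < a, ∃ z < a, y < z ∧ z ∈ C} := by
    constructor
    · intro a ha
      obtain ⟨x, hx, hax, hx'⟩ := closure hα (fun _ v => v ∈ C) (fun x hx => by
        obtain ⟨b, hb, hxb, hbC⟩ := hC.unb x hx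
        exact ⟨b, hb, hxb, hbC⟩) a ha
      refine ⟨x, hx, hax, lt_of_le_of_lt (zero_le (a := a)) hax, fun y hy => ?_⟩
      obtain ⟨w, v, hyw, hwv, hvx, hR'⟩ := hx' y hy
      exact ⟨v, hvx, lt_trans hyw hwv, hR'⟩
    · intro x hx h0x h
      refine ⟨h0x, fun y hy => ?_⟩
      obtain ⟨z, hz, hyz, -, hz'⟩ := h y hy
      obtain ⟨z', hz1, hz2, hz3⟩ := hz' y hyz
      exact ⟨z', lt_trans hz1 hz, hz2, hz3⟩
  obtain ⟨β, hβ, ⟨-, hβC⟩, hβX, -⟩ := hpos _ hC'
  have hCβ : Clb β C :=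
    ⟨fun a ha => by
      obtain ⟨z, h1, h2, h3⟩ := hβC a ha
      exact ⟨z, h1, h2, h3⟩,
     fun x hx h0x h => hC.cls x (lt_trans hx hβ) h0x h⟩
  obtain ⟨b, hb, hbC, hbX, hbμ⟩ := hβX C hCβ
  exact hCX b (lt_trans hb hβ) hbC hbX hbμ

end Pool.Agent.H4.HD.WA
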