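import Pool.Agent.H7.HD.Targets3
import Pool.Agent.H48.HD.HK

/-!
# Module WB of the proof for MP_e37c09_lc: the Mitchell order at an ordinal
-/

open Ordinal Cardinal Order Set
open scoped ZFSet

universe u

namespace Pool.Agent.H4.HD.WB

open _root_.HD
open Pool.Agent.H48.HD.HK

theorem X (hHE : T_HE.{u}) (hEA : T_EA.{u}) (hDA : T_DA.{u}) (hVA : T_VA.{u}) (hLA : T_LA.{u})
    (hWA : T_WA.{u}) : T_WB.{u} := by
  intro en M N κ c d hT
  obtain ⟨hE, hE2, hcode, -⟩ := hEA en hT.hen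
  have hcof : ℵ₀ < κ.cof := hT.ac.cof
  set μ := M.ord with hμ
  set ν := N.ord with hν
  have hG : DS (G0 en μ ν c) := ds_G0 hLA hDA hE hE2 μ ν c
  have hCM : ∀ α ∈ G0 en μ ν c, CMe en μ α c := fun α h => cme_of_G0 hT.mreg hT.mn h
  -- the points of `E en d` outside `G0` form a null set
  have hnull : ¬ Pos ν κ (E en d \ G0 en μ ν c) := by
    refine fun h => hT.cme (h.mono ?_)
    rintro b - ⟨hb, hb'⟩ hcf
    refine ⟨hb, fun hc => hb' ⟨hcf, hc.pos, hc.ult, hc.nrm⟩⟩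
  -- the filter of `c` at `κ` in terms of its filters at almost all points
  have hh1 : ∀ X : Set Ordinal.{u}, ¬ Pos μ κ (E en c \ X) →
      ¬ Pos ν κ {α | α ∈ E en d ∧ Pos μ α (E en c \ X)} := by
    intro X h hp
    exact hWA μ ν κ hcof (E en c \ X) h (hp.mono fun b _ hb _ => hb.2)
  have hh2 : ∀ X : Set Ordinal.{u}, DS X → Pos μ κ (E en c \ X) →
      ¬ Pos ν κ {α | α ∈ E en d ∧ ¬ Pos μ α (E en c \ X)} := by
    intro X hX h hp
    obtain ⟨x, hx⟩ := hcode X hX κ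
    have h1 : ¬ Pos μ κ (E en c ∩ X) := by
      intro h1
      refine hT.ac.ult x ⟨h1.mono ?_, h.mono ?_⟩
      · rintro b hb ⟨hb1, hb2⟩ -
        refine ⟨hb1, ?_⟩
        rw [hx]
        exact ⟨hb2, hb⟩
      · rintro b hb ⟨hb1, hb2⟩ -
        refine ⟨hb1, fun hb3 => hb2 ?_⟩
        rw [hx] at hb3
        exact hb3.1
    have h2 := hWA μ ν κ hcof (E en c ∩ X) h1
    refine null_union hVA hcof h2 hT.cme (hp.mono ?_)
    rintro b - ⟨hb, hb'⟩ -
    by_cases hc : CMe en M.ord b c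
    · left
      by_contra hn
      have h3 := null_union hVA hc.cof hn hb'
      refine h3 (hc.pos.mono ?_)
      rintro a - ha -
      by_cases hax : a ∈ X
      · exact Or.inl ⟨ha, hax⟩
      · exact Or.inr ⟨ha, hax⟩
    · exact Or.inr ⟨hb, hc⟩
  refine ⟨F en μ ν κ c, ZFSet.powerset (ZFSet.powerset κ.toZFSet), ?_, ?_, ?_, ?_⟩
  · refine hod_iff.2 ⟨od_F hLA hDA hT.hen hE hE2 μ ν κ c, fun p hp => ?_⟩
    obtain ⟨α, hα, u, rfl, h⟩ := mem_F.1 hp
    refine (HOD.ordinal α).pair ?_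
    rcases h with ⟨h, rfl⟩ | ⟨-, rfl⟩
    · exact (hHE en hT.hen μ α c (hCM α h)).hod
    · exact hod_empty
  · constructor
    · intro p hp
      exact (ZFSet.mem_sep.1 hp).1
    · intro z hz
      obtain ⟨α, hα, rfl⟩ := mem_toZFSet_iff.1 hz
      by_cases h : α ∈ G0 en μ ν c
      · refine ⟨uz en μ α c, pair_mem_F.2 ⟨hα, Or.inl ⟨h, rfl⟩⟩, fun u hu => ?_⟩
        rcases (pair_mem_F.1 hu).2 with ⟨-, h'⟩ | ⟨h', -⟩
        · exact h'
        · exact absurd h h'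
      · refine ⟨∅, pair_mem_F.2 ⟨hα, Or.inr ⟨h, rfl⟩⟩, fun u hu => ?_⟩
        rcases (pair_mem_F.1 hu).2 with ⟨h', -⟩ | ⟨-, h'⟩
        · exact absurd h' h
        · exact h'
  · have he : (κ.toZFSet).sep (fun b => ∃ u, ZFSet.pair b u ∈ F en μ ν κ c ∧ HMeas b.rank u) =
        os κ (G0 en μ ν c) := by
      ext z
      rw [ZFSet.mem_sep, mem_os]
      constructor
      · rintro ⟨hz, u, hu, hm⟩
        obtain ⟨α, hα, rfl⟩ := mem_toZFSet_iff.1 hz
        refine ⟨α, hα, ?_, rfl⟩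
        rcases (pair_mem_F.1 hu).2 with ⟨h, -⟩ | ⟨-, rfl⟩
        · exact h
        · exact absurd hm (not_hmeas_empty _)
      · rintro ⟨α, hα, h, rfl⟩
        refine ⟨toZFSet_mem_toZFSet_iff.2 hα, uz en μ α c, pair_mem_F.2 ⟨hα, Or.inl ⟨h, rfl⟩⟩, ?_⟩
        rw [rank_toZFSet]
        exact hHE en hT.hen μ α c (hCM α h)
    rw [he, os_mem_uz hG]
    exact hnull
  · intro x hx hxκ
    have hX : DS {a | a.toZFSet ∈ x} := hx.od.ds
    set X : Set Ordinal.{u} := {a | a.toZFSet ∈ x} with hXdef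
    have hxU : x ∈ uz en μ κ c ↔ ¬ Pos μ κ (E en c \ X) := by
      unfold uz
      rw [ZFSet.mem_sep, ZFSet.mem_powerset]
      exact ⟨fun h => h.2.2, fun h => ⟨hxκ, hx.od, h⟩⟩
    have hY : DS {α | α ∈ G0 en μ ν c ∧ ¬ Pos μ α (E en c \ X)} := by
      refine (DO.and hG (DO.not ?_)).congr fun w => Iff.rfl
      refine (do_posc hDA μ 0 (X := fun a _ => a ∈ E en c ∧ ¬ a ∈ X)
        ((do_Ec hE c 0).and (DO.not hX))).congr fun w => ?_
      exact Pos.congr fun b _ => Iff.rfl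
    have he : (κ.toZFSet).sep (fun b => ∃ u, ZFSet.pair b u ∈ F en μ ν κ c ∧ x ∩ b ∈ u) =
        os κ {α | α ∈ G0 en μ ν c ∧ ¬ Pos μ α (E en c \ X)} := by
      ext z
      rw [ZFSet.mem_sep, mem_os]
      have key : ∀ α : Ordinal.{u}, (x ∩ α.toZFSet ∈ uz en μ α c ↔ ¬ Pos μ α (E en c \ X)) := by
        intro α
        unfold uz
        rw [ZFSet.mem_sep, ZFSet.mem_powerset]
        have h : Pos μ α (E en c \ {a | a.toZFSet ∈ x ∩ α.toZFSet}) ↔ Pos μ α (E en c \ X) := by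
          refine Pos.congr fun b hb => ?_
          simp only [Set.mem_sdiff, Set.mem_ofPred_eq, ZFSet.mem_inter, toZFSet_mem_toZFSet_iff, hb,
            and_true, hXdef]
        rw [h]
        constructor
        · rintro ⟨-, -, h⟩
          exact h
        · intro h
          refine ⟨fun z hz => (ZFSet.mem_inter.1 hz).2, ?_, h⟩
          refine OD.of_ds (β := α) (fun z hz => (ZFSet.mem_inter.1 hz).2) ?_
          refine (DO.and hX (DO.ltc 0 α)).congr fun w => ?_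
          simp only [Set.mem_ofPred_eq, ZFSet.mem_inter, toZFSet_mem_toZFSet_iff, hXdef]
      constructor
      · rintro ⟨hz, u, hu, hm⟩
        obtain ⟨α, hα, rfl⟩ := mem_toZFSet_iff.1 hz
        refine ⟨α, hα, ?_, rfl⟩
        rcases (pair_mem_F.1 hu).2 with ⟨h, rfl⟩ | ⟨-, rfl⟩
        · exact ⟨h, (key α).1 hm⟩
        · exact absurd hm (ZFSet.notMem_empty _)
      · rintro ⟨α, hα, ⟨h, h'⟩, rfl⟩
        exact ⟨toZFSet_mem_toZFSet_iff.2 hα, uz en μ α c, pair_mem_F.2 ⟨hα, Or.inl ⟨h, rfl⟩⟩,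
          (key α).2 h'⟩
    rw [hxU, he, os_mem_uz hY]
    constructor
    · intro h
      refine fun hp => null_union hVA hcof hnull (hh1 X h) (hp.mono ?_)
      rintro b - ⟨hb, hb'⟩ -
      by_cases hg : b ∈ G0 en μ ν c
      · right
        refine ⟨hb, ?_⟩
        by_contra hn
        exact hb' ⟨hg, hn⟩
      · left
        exact ⟨hb, hg⟩
    · intro h hp
      refine null_union hVA hcof h (hh2 X hX hp) (hT.ad.pos.mono ?_)
      rintro b - hb -
      by_cases hg : b ∈ {α | α ∈ G0 en μ ν c ∧ ¬ Pos μ α (E en c \ X)}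
      · right
        exact ⟨hb, hg.2⟩
      · left
        exact ⟨hb, hg⟩

end Pool.Agent.H4.HD.WB
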