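import Pool.Agent.H7.HD.Targets3
import Pool.Agent.H7.HD.Tools2

/-!
# Module WC of the proof for MP_e37c09_lc: almost all points of an atom above
-/

open Ordinal Cardinal Order Set
open scoped ZFSet

universe u

namespace Pool.Agent.H4.HD.WC

open _root_.HD

/-- almost all points of the upper atom carry a measure given by the lower atom -/
theorem cme_ae (hHI : T_HI.{u}) (hHJ : T_HJ.{u}) (hVA : T_VA.{u})
    {en : Ordinal.{u} → ZFSet.{u}} {M N K : Cardinal.{u}} {c d : Ordinal.{u}}
    (hT : Two en M N K c d) :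
    ¬ Pos N.ord K.ord {α | α ∈ E en d ∧ ¬ CMe en M.ord α c} := by
  have hcof : ℵ₀ < K.ord.cof := by
    rw [hT.kreg.cof_ord]
    exact lt_of_le_of_lt hT.mreg.aleph0_le (hT.mn.trans hT.nk)
  have h1 := null_union hVA hcof hT.pos (null_union hVA hcof (hHI en M N K c d hT)
    (hHJ en M N K c d hT))
  refine fun h => h1 (h.mono ?_)
  rintro b - ⟨hb, hb'⟩ hcf
  by_cases hp : Pos M.ord b (E en c)
  · right
    by_cases hu : ∃ x, Pos M.ord b (E en c ∩ E en x) ∧ Pos M.ord b (E en c \ E en x)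
    · left
      exact ⟨hb, hu⟩
    · right
      refine ⟨hb, ?_⟩
      by_contra hn
      refine hb' ⟨?_, hp, ?_, ?_⟩
      · have : b.cof = N := Cardinal.ord_injective hcf
        rw [this]
        exact lt_of_le_of_lt hT.mreg.aleph0_le hT.mn
      · intro x hx
        exact hu ⟨x, hx⟩
      · intro e he hpos
        exact hn ⟨e, he, hpos⟩
  · left
    exact ⟨hb, hp⟩

theorem X (hHI : T_HI.{u}) (hHJ : T_HJ.{u}) (hVF : T_VF.{u}) (hVA : T_VA.{u})
    (hWA : T_WA.{u}) : T_WC.{u} := by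
  intro en M N K c d h1 P p h2
  have hNP : N < P := h2.mn
  have hPK : P < K := h2.nk
  have h0P : ℵ₀ < P := lt_of_le_of_lt h1.nreg.aleph0_le hNP
  have hcof : ℵ₀ < K.ord.cof := by
    rw [h1.kreg.cof_ord]
    exact h0P.trans hPK
  have hA : Two en M P K c p := by
    refine ⟨h1.hen, h1.mreg, h2.nreg, h1.kreg, h1.mn.trans hNP, hPK, h1.ac, h2.ad, ?_⟩
    have hB := hVF N.ord P K h2.nreg h1.kreg hPK _ h1.pos
    refine fun h => null_union hVA hcof h2.pos hB (h.mono ?_)
    rintro α - ⟨hα, hα'⟩ hcf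
    have hαc : ℵ₀ < α.cof := by
      have : α.cof = P := Cardinal.ord_injective hcf
      rw [this]
      exact h0P
    by_cases hd : Pos N.ord α (E en d)
    · right
      by_contra hn
      have h3 := hWA M.ord N.ord α hαc (E en c) hα'
      refine null_union hVA hαc hn h3 (hd.mono ?_)
      rintro b - hb -
      by_cases hbc : Pos M.ord b (E en c)
      · exact Or.inr hbc
      · exact Or.inl ⟨hb, hbc⟩
    · exact Or.inl ⟨hα, hd⟩
  refine ⟨hA, ?_⟩
  have n1 := cme_ae hHI hHJ hVA h2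
  have n2 := cme_ae hHI hHJ hVA hA
  have n3 := hVF N.ord P K h2.nreg h1.kreg hPK _ (cme_ae hHI hHJ hVA h1)
  refine fun h => null_union hVA hcof n1 (null_union hVA hcof n2 n3) (h.mono ?_)
  rintro α - ⟨hα, hα'⟩ hcf
  have hαc : α.cof = P := Cardinal.ord_injective hcf
  by_cases g1 : CMe en N.ord α d
  · by_cases g2 : CMe en M.ord α c
    · right; right
      by_contra g3
      refine hα' ⟨h1.hen, h1.mreg, h1.nreg, h1.mn, ?_, g2, g1, g3⟩
      rw [hαc]
      exact hNP
    · right; left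
      exact ⟨hα, g2⟩
  · left
    exact ⟨hα, g1⟩

end Pool.Agent.H4.HD.WC
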