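import Pool.Agent.H4.HD.WC

/-!
# Module WD of the proof for MP_e37c09_lc: the Mitchell rank at almost all points of an atom
-/

open Ordinal Cardinal Order Set
open scoped ZFSet

universe u

namespace Pool.Agent.H4.HD.WD

open _root_.HD

theorem ex_reg {D μ : Cardinal.{u}} (hDs : D.IsStrongLimit) (hD0 : ℵ₀ < D) (hμ : μ < D) :
    ∃ N : Cardinal.{u}, N.IsRegular ∧ μ < N ∧ N < D := by
  refine ⟨succ (max μ ℵ₀), Cardinal.isRegular_succ (le_max_right _ _), ?_, ?_⟩
  · exact lt_of_le_of_lt (le_max_left μ ℵ₀) (lt_succ _)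
  · exact hDs.isSuccLimit.succ_lt (max_lt hμ hD0)

theorem X (hWB : T_WB.{u}) (hWC : T_WC.{u}) (hHE : T_HE.{u}) (hHF : T_HF.{u}) (hHI : T_HI.{u})
    (hHJ : T_HJ.{u}) (hVA : T_VA.{u}) : T_WD.{u} := by
  intro en hen D K hDr hDs hD0 hKr hDK hfam ξ
  have hcof : ℵ₀ < K.ord.cof := by
    rw [hKr.cof_ord]
    exact hD0.trans hDK
  induction ξ using WellFoundedLT.induction with
  | ind ξ ih =>
    intro hξ
    have ih' : ∀ t : ξ.ToType, ∃ M : Cardinal.{u}, M.IsRegular ∧ M < D ∧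
        ∀ P : Cardinal.{u}, P < D → ∀ c p, Two en M P K c p →
          ¬ Pos P.ord K.ord {α | α ∈ E en p ∧
            ¬ MGe α (Ordinal.ToType.mk.symm t).1 (uz en M.ord α c)} := by
      intro t
      have ht : (Ordinal.ToType.mk.symm t).1 < ξ := (Ordinal.ToType.mk.symm t).2
      obtain ⟨μ, hμ, h⟩ := ih _ ht (ht.trans hξ)
      obtain ⟨N, hN, hμN, hND⟩ := ex_reg hDs hD0 hμ
      exact ⟨N, hN, hND, fun P hP c p hT => h N P hN hμN.le hP c p hT⟩
    choose Mf hMr hMD hMG using ih'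
    choose τ hτ e he hnull using fun t => hfam (Mf t) (hMr t) (hMD t)
    let g : ξ.ToType → Cardinal.{u} := fun t => succ (max (Mf t) (τ t).card)
    have hg : ∀ t, g t < D := fun t =>
      hDs.isSuccLimit.succ_lt (max_lt (hMD t) (Cardinal.lt_ord.1 (hτ t)))
    have hsup : iSup g < D := by
      refine Cardinal.iSup_lt_of_isRegular hDr ?_ hg
      rw [Cardinal.mk_toType]
      exact Cardinal.lt_ord.1 hξ
    refine ⟨iSup g, hsup, ?_⟩
    intro N P hNr hμN hPD c p hT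
    have hNK : N < K := hT.mn.trans hT.nk
    have hX : ∀ ζ < ξ, ¬ Pos P.ord K.ord {α | α ∈ E en p ∧
        ¬ ∃ W, MGe α ζ W ∧ MLt α W (uz en N.ord α c)} := by
      intro ζ hζ
      let t : ξ.ToType := Ordinal.ToType.mk ⟨ζ, hζ⟩
      have ht : (Ordinal.ToType.mk.symm t) = ⟨ζ, hζ⟩ := by simp [t]
      have hgt : g t ≤ N := (le_ciSup (Cardinal.bddAbove_range g) t).trans hμN
      have h1 : max (Mf t) (τ t).card < N := lt_of_lt_of_le (lt_succ _) hgt
      have hMN : Mf t < N := lt_of_le_of_lt (le_max_left _ _) h1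
      have hτN : τ t < N.ord := Cardinal.lt_ord.2 (lt_of_le_of_lt (le_max_right _ _) h1)
      obtain ⟨i, hi, hpos⟩ := hHF en (Mf t) N K hen (hMr t) hNr hKr hMN hNK (τ t) hτN
        (e t) (hnull t) c hT.ac
      have hTw : Two en (Mf t) N K (e t i) c :=
        ⟨hen, hMr t, hNr, hKr, hMN, hNK, he t i hi, hT.ac, hpos⟩
      obtain ⟨h2, h3⟩ := hWC en (Mf t) N K (e t i) c hTw P p hT
      have h4 := hMG t P hPD (e t i) p h2
      rw [ht] at h4
      refine fun h => null_union hVA hcof h3 h4 (h.mono ?_)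
      rintro α - ⟨hα, hα'⟩ -
      by_cases g1 : Two2 en (Mf t) N α (e t i) c
      · right
        refine ⟨hα, fun g2 => hα' ⟨_, g2, hWB en (Mf t) N α (e t i) c g1⟩⟩
      · left
        exact ⟨hα, g1⟩
    have hcard : ξ.card < K.ord.cof := by
      rw [hKr.cof_ord]
      exact (Cardinal.lt_ord.1 hξ).trans hDK
    have h5 := hVA P.ord K.ord hcof ξ hcard _ hX
    have h6 := Pool.Agent.H4.HD.WC.cme_ae hHI hHJ hVA hT
    refine fun h => null_union hVA hcof h6 h5 (h.mono ?_)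
    rintro α - ⟨hα, hα'⟩ -
    by_cases g1 : CMe en N.ord α c
    · right
      by_contra hn
      apply hα'
      rw [MGe]
      refine ⟨hHE en hen _ _ _ g1, fun ζ => ?_⟩
      by_contra hn2
      exact hn ⟨ζ.1, ζ.2, hα, hn2⟩
    · left
      exact ⟨hα, g1⟩

end Pool.Agent.H4.HD.WD
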