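import Pool.Agent.H7.HD.Tools2

/-!
# (XB) the critical point is inaccessible
-/

open Ordinal Cardinal Order Set
open scoped ZFSet

universe u

namespace Pool.Agent.H4.HD.XB

open _root_.HD

/-- a cofinal map -/
theorem cof_map (δ : Ordinal.{u}) : ∃ e : Ordinal.{u} → Ordinal.{u}, ∀ b < δ,
    ∃ a < δ.cof.ord, b ≤ e a ∧ e a < δ := by
  obtain ⟨s, hs, hc⟩ := Order.exists_cof_eq (α := Iio δ)
  rw [Ordinal.cof_Iio, ← Ordinal.lift_cof] at hc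
  have h1 : #(Subtype.val '' s : Set Ordinal.{u}) ≤ Cardinal.lift.{u + 1} δ.cof.ord.card := by
    rw [Cardinal.card_ord, ← hc]
    exact Cardinal.mk_image_le
  obtain ⟨e, he⟩ := cov_iff.2 h1
  refine ⟨e, fun b hb => ?_⟩
  obtain ⟨c, hc, hbc⟩ := hs ⟨b, hb⟩
  obtain ⟨a, ha, hac⟩ := he c.1 ⟨c, hc, rfl⟩
  exact ⟨a, ha, by rw [hac]; exact hbc, by rw [hac]; exact c.2⟩

theorem lim {δ η θ : Ordinal.{u}} {j} (h : Emb δ η θ j) : IsSuccLimit δ ∧ ω < δ := by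
  have h0 : ∀ n : ℕ, Jo j n = n := by
    intro n
    induction n with
    | zero => simpa using h.Jo_zero
    | succ n ih =>
      have hn : (n : Ordinal.{u}) < η := (Ordinal.natCast_lt_omega0 n).trans h.gd.2
      have := h.Jo_succ hn
      rw [ih] at this
      push_cast
      rw [Order.succ_eq_add_one] at this
      exact this
  have hω : ω < δ := by
    by_contra hlt
    push Not at hlt
    have hJ : Jo j δ = δ := by
      rcases hlt.lt_or_eq with hlt | heq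
      · obtain ⟨n, rfl⟩ := Ordinal.lt_omega0.1 hlt
        exact h0 n
      · rw [heq]; exact h.Jo_omega
    have := h.Jo_crit
    rw [hJ] at this
    exact absurd h.dlt this.not_gt
  refine ⟨?_, hω⟩
  rw [Ordinal.isSuccLimit_iff]
  refine ⟨(lt_of_le_of_lt bot_le hω).ne', ?_⟩
  rw [isSuccPrelimit_iff_succ_lt]
  intro a ha
  rcases (succ_le_of_lt ha).lt_or_eq with hlt | heq
  · exact hlt
  · exfalso
    have h1 := h.Jo_succ (ha.trans h.dlt)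
    rw [heq, h.Jo_fix ha, heq] at h1
    have := h.Jo_crit
    rw [h1] at this
    exact absurd h.dlt this.not_gt

/-- the critical point is regular -/
theorem reg {δ η θ : Ordinal.{u}} {j} (h : Emb δ η θ j) : δ.cof.ord = δ := by
  by_contra hne
  have hτ : δ.cof.ord < δ := lt_of_le_of_ne (Ordinal.ord_cof_le δ) hne
  set τ := δ.cof.ord with hτd
  obtain ⟨e, he⟩ := cof_map δ
  set f := rs τ δ (fun a b => b = e a) with hf
  have hτη : τ.toZFSet ∈ V_ η := Gd.ord.2 (hτ.trans h.dlt)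
  have hδη : δ.toZFSet ∈ V_ η := Gd.ord.2 h.dlt
  have hfη : f ∈ V_ η := by
    refine mem_V_of_sub ?_ (h.gd.prod hτη hδη)
    intro z hz
    exact (ZFSet.mem_sep.1 hz).1
  have hjδ : j δ.toZFSet = (Jo j δ).toZFSet := h.ord h.dlt
  have hjτ : j τ.toZFSet = τ.toZFSet := h.fix τ hτ
  -- unboundedness
  have l1 : Loc.{u} fun v => ∀ b ∈ v 2, ∃ a ∈ v 1, ∃ c ∈ v 2, b ⊆ c ∧
      ZFSet.pair a c ∈ v 0 :=
    Loc.allMem _ (Loc.exMem _ (Loc.exMem _ ((Loc.sub 2 0).and (loc_pmem 1 0 3))))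
  have t1 := (h.trl l1 [f, τ.toZFSet, δ.toZFSet] (by simp [hfη, hτη, hδη])).1 (by
    show ∀ b ∈ δ.toZFSet, ∃ a ∈ τ.toZFSet, ∃ c ∈ δ.toZFSet, b ⊆ c ∧ ZFSet.pair a c ∈ f
    intro b hb
    obtain ⟨b, hb', rfl⟩ := mem_toZFSet_iff.1 hb
    obtain ⟨a, ha, h1, h2⟩ := he b hb'
    exact ⟨_, toZFSet_mem_toZFSet_iff.2 ha, _, toZFSet_mem_toZFSet_iff.2 h2,
      toZFSet_subset_toZFSet_iff.2 h1, pair_mem_rs.2 ⟨ha, h2, rfl⟩⟩)
  -- functionality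
  have l2 : Loc.{u} fun v => ∀ a ∈ v 1, ∀ b ∈ v 2, ∀ c ∈ v 2, ZFSet.pair a b ∈ v 0 →
      ZFSet.pair a c ∈ v 0 → b = c :=
    Loc.allMem _ (Loc.allMem _ (Loc.allMem _ ((loc_pmem 2 1 3).imp
      ((loc_pmem 2 0 3).imp (Loc.eq 1 0)))))
  have t2 := (h.trl l2 [f, τ.toZFSet, δ.toZFSet] (by simp [hfη, hτη, hδη])).1 (by
    show ∀ a ∈ τ.toZFSet, ∀ b ∈ δ.toZFSet, ∀ c ∈ δ.toZFSet, ZFSet.pair a b ∈ f →
      ZFSet.pair a c ∈ f → b = c
    intro a ha b hb c hc h1 h2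
    obtain ⟨a, ha', rfl⟩ := mem_toZFSet_iff.1 ha
    obtain ⟨b, hb', rfl⟩ := mem_toZFSet_iff.1 hb
    obtain ⟨c, hc', rfl⟩ := mem_toZFSet_iff.1 hc
    rw [(pair_mem_rs.1 h1).2.2, (pair_mem_rs.1 h2).2.2])
  have t1' : ∀ b ∈ j δ.toZFSet, ∃ a ∈ j τ.toZFSet, ∃ c ∈ j δ.toZFSet, b ⊆ c ∧
      ZFSet.pair a c ∈ j f := t1
  have t2' : ∀ a ∈ j τ.toZFSet, ∀ b ∈ j δ.toZFSet, ∀ c ∈ j δ.toZFSet,
      ZFSet.pair a b ∈ j f → ZFSet.pair a c ∈ j f → b = c := t2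
  rw [hjδ, hjτ] at t1' t2'
  have hδJ : δ < Jo j δ := h.dlt.trans h.Jo_crit
  obtain ⟨a, ha, c, hc, hdc, hp⟩ := t1' δ.toZFSet (toZFSet_mem_toZFSet_iff.2 hδJ)
  obtain ⟨a, ha', rfl⟩ := mem_toZFSet_iff.1 ha
  obtain ⟨c, hc', rfl⟩ := mem_toZFSet_iff.1 hc
  rw [toZFSet_subset_toZFSet_iff] at hdc
  -- the value of `f` at `a`
  by_cases hea : e a < δ
  · have h3 : ZFSet.pair a.toZFSet (e a).toZFSet ∈ f := pair_mem_rs.2 ⟨ha', hea, rfl⟩
    have h4 := (h.opair (ha'.trans (hτ.trans h.dlt)) (hea.trans h.dlt) hfη).1 h3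
    rw [h.Jo_fix (ha'.trans hτ), h.Jo_fix hea] at h4
    have h5 := t2' _ ha _ (toZFSet_mem_toZFSet_iff.2 (hea.trans hδJ)) _ hc h4 hp
    have h6 := toZFSet_injective h5
    rw [← h6] at hdc
    exact absurd hea (not_lt.2 hdc)
  · -- no pair with first component `a` in `f`, hence none in `j f`
    have l3 : Loc.{u} fun v => ∃ c ∈ v 2, ZFSet.pair (v 1) c ∈ v 0 :=
      Loc.exMem _ (loc_pmem 2 0 1)
    have haη : a.toZFSet ∈ V_ η := Gd.ord.2 (ha'.trans (hτ.trans h.dlt))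
    have t3 := (h.trl l3 [f, a.toZFSet, δ.toZFSet] (by simp [hfη, haη, hδη])).2 (by
      show ∃ c ∈ j δ.toZFSet, ZFSet.pair (j a.toZFSet) c ∈ j f
      rw [hjδ, h.fix a (ha'.trans hτ)]
      exact ⟨_, hc, hp⟩)
    have t3' : ∃ c ∈ δ.toZFSet, ZFSet.pair a.toZFSet c ∈ f := t3
    obtain ⟨c, hc, h7⟩ := t3'
    obtain ⟨c, hc', rfl⟩ := mem_toZFSet_iff.1 hc
    have h8 := pair_mem_rs.1 h7
    rw [← h8.2.2] at hea
    exact hea hc'

theorem sl {δ η θ : Ordinal.{u}} {j} (h : Emb δ η θ j) (c : Cardinal.{u}) (hc : c.ord < δ) :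
    (2 : Cardinal.{u}) ^ c < δ.card := by
  by_contra hlt
  push Not at hlt
  set l := c.ord with hl
  have hlη : l.toZFSet ∈ V_ η := Gd.ord.2 (hc.trans h.dlt)
  have hδη : δ.toZFSet ∈ V_ η := Gd.ord.2 h.dlt
  have hjδ : j δ.toZFSet = (Jo j δ).toZFSet := h.ord h.dlt
  have hjl : j l.toZFSet = l.toZFSet := h.fix l hc
  -- an injection
  obtain ⟨ι⟩ : Nonempty (Iio δ ↪ Set (Iio l)) := by
    rw [← Cardinal.le_def, Cardinal.mk_set, Cardinal.mk_Iio_ordinal, Cardinal.mk_Iio_ordinal, hl,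
      Cardinal.card_ord, ← Cardinal.lift_two.{u + 1, u}, ← Cardinal.lift_power, Cardinal.lift_le]
    exact hlt
  set G : Ordinal.{u} → ZFSet.{u} := fun a =>
    os l {x | ∃ (ha : a < δ) (hx : x < l), (⟨x, hx⟩ : Iio l) ∈ ι ⟨a, ha⟩} with hG
  have hGl : ∀ a, G a ⊆ l.toZFSet := fun a z hz => (ZFSet.mem_sep.1 hz).1
  have hGi : ∀ a < δ, ∀ b < δ, G a = G b → a = b := by
    intro a ha b hb hab
    have : ι ⟨a, ha⟩ = ι ⟨b, hb⟩ := by
      ext x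
      have h1 : x.1.toZFSet ∈ G a ↔ x ∈ ι ⟨a, ha⟩ := by
        rw [hG, ord_mem_os]
        constructor
        · rintro ⟨-, _, _, h⟩
          exact h
        · intro h
          exact ⟨x.2, ha, x.2, h⟩
      have h2 : x.1.toZFSet ∈ G b ↔ x ∈ ι ⟨b, hb⟩ := by
        rw [hG, ord_mem_os]
        constructor
        · rintro ⟨-, _, _, h⟩
          exact h
        · intro h
          exact ⟨x.2, hb, x.2, h⟩
      rw [← h1, ← h2, hab]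
    exact congrArg Subtype.val (ι.injective this)
  set P := ZFSet.powerset l.toZFSet with hP
  have hPη : P ∈ V_ η := h.gd.powerset hlη
  have hjP : j P = P := by rw [hP, h.powerset hlη, hjl]
  set g := ZFSet.sep (fun p => ∃ a : Ordinal.{u}, p = ZFSet.pair a.toZFSet (G a))
    (ZFSet.prod δ.toZFSet P) with hg
  have hgη : g ∈ V_ η := by
    refine mem_V_of_sub ?_ (h.gd.prod hδη hPη)
    intro z hz
    exact (ZFSet.mem_sep.1 hz).1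
  have hgm : ∀ (a : Ordinal.{u}) (x : ZFSet.{u}),
      ZFSet.pair a.toZFSet x ∈ g ↔ a < δ ∧ x = G a := by
    intro a x
    rw [hg, ZFSet.mem_sep, ZFSet.pair_mem_prod, toZFSet_mem_toZFSet_iff]
    constructor
    · rintro ⟨⟨h1, -⟩, b, h2⟩
      obtain ⟨h3, h4⟩ := ZFSet.pair_injective h2
      rw [← toZFSet_injective h3] at h4
      exact ⟨h1, h4⟩
    · rintro ⟨h1, rfl⟩
      exact ⟨⟨h1, ZFSet.mem_powerset.2 (hGl a)⟩, a, rfl⟩
  have hfixx : ∀ x, x ⊆ l.toZFSet → j x = x := by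
    intro x hx
    have hxη : x ∈ V_ η := mem_V_of_sub hx hlη
    have h1 : j x ⊆ l.toZFSet := by
      rw [← hjl]
      exact (h.sub hxη hlη).1 hx
    ext z
    constructor
    · intro hz
      obtain ⟨a, ha, rfl⟩ := mem_toZFSet_iff.1 (h1 hz)
      rw [h.mem (Gd.ord.2 (ha.trans (hc.trans h.dlt))) hxη, h.fix a (ha.trans hc)]
      exact hz
    · intro hz
      obtain ⟨a, ha, rfl⟩ := mem_toZFSet_iff.1 (hx hz)
      rw [h.mem (Gd.ord.2 (ha.trans (hc.trans h.dlt))) hxη, h.fix a (ha.trans hc)] at hz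
      exact hz
  -- totality
  have l1 : Loc.{u} fun v => ∀ a ∈ v 1, ∃ x ∈ v 2, ZFSet.pair a x ∈ v 0 :=
    Loc.allMem _ (Loc.exMem _ (loc_pmem 1 0 2))
  have t1 : ∀ a ∈ j δ.toZFSet, ∃ x ∈ j P, ZFSet.pair a x ∈ j g :=
    (h.trl l1 [g, δ.toZFSet, P] (by simp [hgη, hδη, hPη])).1 (by
      show ∀ a ∈ δ.toZFSet, ∃ x ∈ P, ZFSet.pair a x ∈ g
      intro a ha
      obtain ⟨a, ha', rfl⟩ := mem_toZFSet_iff.1 ha
      exact ⟨G a, ZFSet.mem_powerset.2 (hGl a), (hgm a _).2 ⟨ha', rfl⟩⟩)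
  -- injectivity
  have l2 : Loc.{u} fun v => ∀ a ∈ v 1, ∀ b ∈ v 1, ∀ x ∈ v 2, ZFSet.pair a x ∈ v 0 →
      ZFSet.pair b x ∈ v 0 → a = b :=
    Loc.allMem _ (Loc.allMem _ (Loc.allMem _ ((loc_pmem 2 0 3).imp
      ((loc_pmem 1 0 3).imp (Loc.eq 2 1)))))
  have t2 : ∀ a ∈ j δ.toZFSet, ∀ b ∈ j δ.toZFSet, ∀ x ∈ j P, ZFSet.pair a x ∈ j g →
      ZFSet.pair b x ∈ j g → a = b :=
    (h.trl l2 [g, δ.toZFSet, P] (by simp [hgη, hδη, hPη])).1 (by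
      show ∀ a ∈ δ.toZFSet, ∀ b ∈ δ.toZFSet, ∀ x ∈ P, ZFSet.pair a x ∈ g →
        ZFSet.pair b x ∈ g → a = b
      intro a ha b hb x _ h1 h2
      obtain ⟨a, ha', rfl⟩ := mem_toZFSet_iff.1 ha
      obtain ⟨b, hb', rfl⟩ := mem_toZFSet_iff.1 hb
      rw [hgm] at h1 h2
      rw [hGi a ha' b hb' (h1.2.symm.trans h2.2)])
  rw [hjδ, hjP] at t1 t2
  have hδJ : δ < Jo j δ := h.dlt.trans h.Jo_crit
  obtain ⟨x, hx, hp⟩ := t1 δ.toZFSet (toZFSet_mem_toZFSet_iff.2 hδJ)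
  have hxl : x ⊆ l.toZFSet := ZFSet.mem_powerset.1 hx
  have hxη : x ∈ V_ η := mem_V_of_sub hxl hlη
  have l3 : Loc.{u} fun v => ∃ a ∈ v 1, ZFSet.pair a (v 2) ∈ v 0 :=
    Loc.exMem _ (loc_pmem 0 3 1)
  have t3 : ∃ a ∈ δ.toZFSet, ZFSet.pair a x ∈ g :=
    (h.trl l3 [g, δ.toZFSet, x] (by simp [hgη, hδη, hxη])).2 (by
      show ∃ a ∈ j δ.toZFSet, ZFSet.pair a (j x) ∈ j g
      rw [hjδ, hfixx x hxl]
      exact ⟨_, toZFSet_mem_toZFSet_iff.2 hδJ, hp⟩)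
  obtain ⟨a, ha, hax⟩ := t3
  obtain ⟨a, ha', rfl⟩ := mem_toZFSet_iff.1 ha
  have haη : a.toZFSet ∈ V_ η := Gd.ord.2 (ha'.trans h.dlt)
  have h4 := (h.mem (h.gd.pair haη hxη) hgη).1 hax
  rw [h.pair haη hxη, h.fix a ha', hfixx x hxl] at h4
  have h5 := t2 _ (toZFSet_mem_toZFSet_iff.2 (ha'.trans hδJ)) _
    (toZFSet_mem_toZFSet_iff.2 hδJ) x hx h4 hp
  exact ha'.ne (toZFSet_injective h5)

theorem X : T_XB.{u} := by
  intro δ η θ j h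
  obtain ⟨hlim, hω⟩ := lim h
  have hreg := reg h
  refine ⟨δ.cof, hreg.symm, ⟨?_, ?_⟩, ⟨?_, ?_⟩, ?_⟩
  · exact Ordinal.aleph0_le_cof_iff.2 (Ordinal.one_lt_cof_iff.2 hlim)
  · rw [Ordinal.cof_ord_cof]
  · exact fun h0 => (lt_of_le_of_lt bot_le hω).ne' (Ordinal.cof_eq_zero.1 h0)
  · intro c hc
    have h1 : c.ord < δ := by rw [← hreg]; exact Cardinal.ord_lt_ord.2 hc
    have h2 := sl h c h1
    rwa [← hreg, Cardinal.card_ord] at h2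
  · have h1 : (ℵ₀ : Cardinal.{u}).ord < δ.cof.ord := by rw [hreg, Cardinal.ord_aleph0]; exact hω
    exact Cardinal.ord_lt_ord.1 h1

end Pool.Agent.H4.HD.XB
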