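import Pool.Agent.H7.HD.Tools2

/-!
# (XJ) third step of the covering argument
-/

open Ordinal Cardinal Order Set
open scoped ZFSet

universe u

namespace Pool.Agent.H4.HD.XJ

open _root_.HD

theorem X (hXG : T_XG.{u}) (hXH : T_XH.{u}) (hXI : T_XI.{u}) (hEN : T_EN.{u}) (hEA : T_EA.{u})
    (hEB : T_EB.{u}) : T_XJ.{u} := by
  intro δ η θ j M K γ f hS α hα hδα hαγ
  obtain ⟨en, hen⟩ := hEN
  have hE := (hEA en hen).1
  have hcof := hXH δ η θ j M K γ f hS α hα hδα hαγ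
  have hℵδ : ℵ₀ < δ.card := by
    have h1 := hS.dom
    rw [← hS.dreg, Cardinal.lt_ord, Ordinal.card_omega0] at h1
    rw [← hS.dreg, Cardinal.card_ord]
    exact h1
  have hℵα : ℵ₀ < α.card := hℵδ.trans_le (Ordinal.card_le_card hδα.le)
  have hℵcof : ℵ₀ < α.cof := by
    have h1 := hS.dom.trans_le hcof
    rwa [Cardinal.lt_ord, Ordinal.card_omega0] at h1
  have hlim : IsSuccLimit α := by
    rw [← Ordinal.one_lt_cof_iff]
    exact (Cardinal.one_lt_aleph0).trans hℵcof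
  have hη : ∀ a < α, a < η := fun a ha => ha.trans_le (hαγ.trans hS.γη.le)
  have hemb := hS.emb
  obtain ⟨S, E', hSα, hE', ⟨e, he⟩, h1, h2⟩ := hXI δ η θ j M K γ f hS α hlim hcof hαγ
  have hJ : DR fun a b => a < γ ∧ b = Jo j a := hXG δ η θ j M K γ f hS
  set G : Ordinal.{u} → Ordinal.{u} → Prop := fun ξ ζ => ξ < ζ ∧ ζ < α ∧
    ∃ x ∈ E', Jo j ξ ≤ x ∧ x < Jo j ζ with hGd
  have hG : DR G := by
    refine DO.congr (A := fun w => w 0 < w 1 ∧ w 1 < α ∧ ∃ x, ∃ a, ∃ b,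
      (w 0 < γ ∧ a = Jo j (w 0)) ∧ (w 1 < γ ∧ b = Jo j (w 1)) ∧ x ∈ E' ∧ a ≤ x ∧ x < b) ?_
      fun w => ?_
    · refine (DO.lt 0 1).and ((DO.ltc 1 α).and (DO.ex (R := fun x w => ∃ a, ∃ b,
        (w 0 < γ ∧ a = Jo j (w 0)) ∧ (w 1 < γ ∧ b = Jo j (w 1)) ∧ x ∈ E' ∧ a ≤ x ∧ x < b) ?_))
      refine DO.ex (R := fun a w => ∃ b, (w 1 < γ ∧ a = Jo j (w 1)) ∧
        (w 2 < γ ∧ b = Jo j (w 2)) ∧ w 0 ∈ E' ∧ a ≤ w 0 ∧ w 0 < b) ?_
      refine DO.ex (R := fun b w => (w 2 < γ ∧ w 0 = Jo j (w 2)) ∧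
        (w 3 < γ ∧ b = Jo j (w 3)) ∧ w 1 ∈ E' ∧ w 0 ≤ w 1 ∧ w 1 < b) ?_
      exact (DO.s2 (X := fun a b => a < γ ∧ b = Jo j a) hJ 3 1).and
        ((DO.s2 (X := fun a b => a < γ ∧ b = Jo j a) hJ 4 0).and ((hE'.s1 2).and ((DO.le 1 2).and (DO.lt 2 0))))
    · show G (w 0) (w 1) ↔ _
      constructor
      · rintro ⟨a1, a2, x, a3, a4, a5⟩
        exact ⟨a1, a2, x, _, _, ⟨(a1.trans a2).trans_le hαγ, rfl⟩, ⟨a2.trans_le hαγ, rfl⟩, a3,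
          a4, a5⟩
      · rintro ⟨a1, a2, x, _, _, ⟨_, rfl⟩, ⟨_, rfl⟩, a3, a4, a5⟩
        exact ⟨a1, a2, x, a3, a4, a5⟩
  have hGex : ∀ ξ < α, ∃ ζ, G ξ ζ := by
    intro ξ hξ
    obtain ⟨ζ, hζ, hlt, x, hx⟩ := h1 ξ hξ
    exact ⟨ζ, hlt, hζ, x, hx⟩
  have hGmono : ∀ ξ' ξ ζ, ξ' ≤ ξ → G ξ ζ → G ξ' ζ := by
    rintro ξ' ξ ζ hle ⟨a1, a2, x, a3, a4, a5⟩
    refine ⟨hle.trans_lt a1, a2, x, a3, le_trans ?_ a4, a5⟩
    exact (hemb.le_iff (hη _ (hle.trans_lt (a1.trans a2))) (hη _ (a1.trans a2))).2 hle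
  set Gl : Ordinal.{u} → Ordinal.{u} → Prop := fun ξ ζ => G ξ ζ ∧ ∀ z < ζ, ¬ G ξ z with hGld
  have hGl : DR Gl := hG.and (DO.allLt (R := fun z w => ¬ G (w 0) z) 1 (hG.s2 1 0).not)
  have hGlu : ∀ ξ ζ ζ', Gl ξ ζ → Gl ξ ζ' → ζ = ζ' := by
    intro ξ ζ ζ' b1 b2
    rcases lt_trichotomy ζ ζ' with h | h | h
    · exact absurd b1.1 (b2.2 ζ h)
    · exact h
    · exact absurd b2.1 (b1.2 ζ' h)
  have hGlex : ∀ ξ < α, ∃ ζ, Gl ξ ζ := by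
    intro ξ hξ
    obtain ⟨ζ, hζ, hmin⟩ := WellFounded.has_min (r := ((· < ·) : Ordinal.{u} → _ → Prop))
      Ordinal.lt_wf {ζ | G ξ ζ} (hGex ξ hξ)
    exact ⟨ζ, hζ, fun z hz hGz => hmin z hGz hz⟩
  set C : Set Ordinal.{u} := {ζ | ζ < α ∧ 0 < ζ ∧ ∀ ξ < ζ, ∃ ξ' < ζ, G ξ ξ'} with hC
  have hCds : DS C := (DO.ltc 0 α).and ((DO.gtc 0 0).and (DO.allLt (R := fun ξ w =>
    ∃ ξ' < w 0, G ξ ξ') 0 (DO.exLt (R := fun ξ' w => G (w 0) ξ') 1 (hG.s2 1 0))))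
  -- `C` is unbounded
  have hCunb : ∀ ξ0 < α, ∃ ζ ∈ C, ξ0 < ζ := by
    intro ξ0 hξ0
    set Φ : Ordinal.{u} → Set Ordinal.{u} → (ℕ → Ordinal.{u}) → Prop := fun x A _ =>
      x = ξ0 ∨ ∃ y, y ∈ A ∧ Gl y x with hΦ
    have hΦds := hEB en hen Φ (by
      refine (DO.eqc 0 ξ0).or (DO.ex (R := fun y w => y ∈ E en (w 1) ∩ Iio (w 0) ∧
        Gl y (w 0)) ?_)
      exact ((hE.s2 (X := fun x y => x ∈ E en y) 0 2).and (DO.lt 0 1)).and (hGl.s2 0 1))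
    set X : Set Ordinal.{u} := {x | recJ Φ (fun _ => 0) x} with hX
    have hXds : DS X := DO.sect (P := fun x w => recJ Φ w x) hΦds (fun _ => 0)
    have hXm : ∀ x, x ∈ X ↔ x = ξ0 ∨ ∃ y, (y < x ∧ y ∈ X) ∧ Gl y x := fun x =>
      recJ_iff Φ (fun _ => 0) x
    choose nx hnx using hGlex
    classical
    let s : ℕ → Iio α := fun n => Nat.rec ⟨ξ0, hξ0⟩ (fun _ p => ⟨nx p.1 p.2, (hnx p.1 p.2).1.2.1⟩) n
    have hs0 : (s 0).1 = ξ0 := rfl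
    have hss : ∀ n, Gl (s n).1 (s (n + 1)).1 := fun n => hnx (s n).1 (s n).2
    have hslt : ∀ n, (s n).1 < (s (n + 1)).1 := fun n => (hss n).1.1
    have hXr : ∀ x ∈ X, ∃ n, x = (s n).1 := by
      intro x
      induction x using WellFoundedLT.induction with
      | ind x ih =>
        intro hx
        rcases (hXm x).1 hx with h | ⟨y, ⟨hyx, hy⟩, hgl⟩
        · exact ⟨0, h⟩
        · obtain ⟨n, rfl⟩ := ih y hyx hy
          exact ⟨n + 1, hGlu _ _ _ hgl (hss n)⟩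
    have hrX : ∀ n, (s n).1 ∈ X := by
      intro n
      induction n with
      | zero => exact (hXm _).2 (Or.inl rfl)
      | succ n ih => exact (hXm _).2 (Or.inr ⟨_, ⟨hslt n, ih⟩, hss n⟩)
    have hfew : Few α.card.ord (X ∩ Iio α) := by
      rw [few_iff]
      have h3 : (X ∩ Iio α) ⊆ range (fun n => (s n).1) := by
        rintro x ⟨hx, -⟩
        obtain ⟨n, rfl⟩ := hXr x hx
        exact ⟨n, rfl⟩
      have h4 : #(X ∩ Iio α : Set Ordinal.{u}) ≤ ℵ₀ :=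
        Cardinal.le_aleph0_iff_set_countable.2 ((countable_range _).mono h3)
      refine h4.trans_lt ?_
      rw [← Cardinal.lift_aleph0.{u + 1, u}, Cardinal.lift_lt]
      exact hℵα
    have hbd : ¬ ∀ b < α, ∃ c < α, b ≤ c ∧ c ∈ X := fun h => hα X hXds h hfew
    push Not at hbd
    obtain ⟨b, hb, hbX⟩ := hbd
    have hsb : ∀ n, (s n).1 < b := by
      intro n
      by_contra h
      push Not at h
      exact hbX _ (s n).2 h (hrX n)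
    set ζ : Ordinal.{u} := ⨆ n, (s n).1 with hζ
    have hle : ∀ n, (s n).1 ≤ ζ := fun n => Ordinal.le_iSup (fun n => (s n).1) n
    have hlt : ∀ n, (s n).1 < ζ := fun n => (hslt n).trans_le (hle (n + 1))
    have hζb : ζ ≤ b := Ordinal.iSup_le fun n => (hsb n).le
    refine ⟨ζ, ⟨hζb.trans_lt hb, lt_of_le_of_lt bot_le (hlt 0), fun ξ hξ => ?_⟩, hlt 0⟩
    obtain ⟨n, hn⟩ : ∃ n, ξ < (s n).1 := by
      by_contra hcon
      push Not at hcon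
      exact absurd (Ordinal.iSup_le hcon) (not_le.2 hξ)
    exact ⟨(s (n + 1)).1, hlt (n + 1), hGmono _ _ _ hn.le (hss n).1⟩
  have hCfew := hα C hCds (fun b hb => by
    obtain ⟨ζ, hζ, hlt⟩ := hCunb b hb
    exact ⟨ζ, hζ.1, hlt.le, hζ⟩)
  have hCI : C ∩ Iio α = C := inter_eq_left.2 fun x hx => hx.1
  rw [hCI, few_iff, not_lt] at hCfew
  -- the injection
  have hinj : ∀ ζ ∈ C, ∃ y ∈ S, ζ ≤ y ∧ ∀ z ∈ C, ζ < z → y < z := by
    intro ζ hζ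
    obtain ⟨ζ', ⟨hζ', hlt⟩, hmin⟩ := WellFounded.has_min
      (r := ((· < ·) : Ordinal.{u} → _ → Prop)) Ordinal.lt_wf {z | z ∈ C ∧ ζ < z}
      (by obtain ⟨z, hz, hlt⟩ := hCunb ζ hζ.1; exact ⟨z, hz, hlt⟩)
    obtain ⟨ξ', hξ', hG'⟩ := hζ'.2.2 ζ hlt
    obtain ⟨y, hy, h3, h4⟩ := h2 ζ hζ.1 ξ' hG'.2.1 hG'.2.2
    refine ⟨y, hy, h3, fun z hz hlz => h4.trans (hξ'.trans_le ?_)⟩
    exact not_lt.1 (hmin z ⟨hz, hlz⟩)
  choose F hF1 hF2 hF3 using hinj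
  have hCS : #C ≤ #S := by
    refine Cardinal.mk_le_of_injective (f := fun x : C => (⟨F x.1 x.2, hF1 x.1 x.2⟩ : S)) ?_
    intro a b hab
    have h5 : F a.1 a.2 = F b.1 b.2 := congrArg Subtype.val hab
    apply Subtype.ext
    apply le_antisymm
    · by_contra hlt
      push Not at hlt
      have h6 := hF3 b.1 b.2 a.1 a.2 hlt
      rw [← h5] at h6
      exact absurd (hF2 a.1 a.2) (not_le.2 h6)
    · by_contra hlt
      push Not at hlt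
      have h6 := hF3 a.1 a.2 b.1 b.2 hlt
      rw [h5] at h6
      exact absurd (hF2 b.1 b.2) (not_le.2 h6)
  have hSc := cov_iff.1 ⟨e, he⟩
  rw [Cardinal.card_ord] at hSc
  exact Cardinal.lift_le.1 (hCfew.trans (hCS.trans hSc))

end Pool.Agent.H4.HD.XJ
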