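import Pool.Agent.H7.HD.Targets5
import Pool.Agent.H3.HD.DM

/-!
# (FU) the fine ultrafilter of a family
-/

open Ordinal Cardinal Order Set
open scoped ZFSet

universe u

namespace Pool.Agent.H4.HD.FU

open _root_.HD

/-- membership in `PkHOD` in terms of sets -/
def PZ (k l x : ZFSet.{u}) : Prop := x ⊆ l ∧ ∃ t ∈ k, ∃ f, HOD f ∧ ZFSet.IsFunc t x f ∧
  ∀ b ∈ x, ∃ a ∈ t, ZFSet.pair a b ∈ f

theorem mem_pk {κ lam : Ordinal.{u}} {x : ZFSet.{u}} :
    x ∈ PkHOD κ lam ↔ PZ κ.toZFSet lam.toZFSet x := by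
  unfold PkHOD
  rw [ZFSet.mem_sep, ZFSet.mem_powerset]
  refine and_congr_right fun _ => ?_
  constructor
  · rintro ⟨τ, hτ, f, h1, h2, h3⟩
    refine ⟨τ.toZFSet, toZFSet_mem_toZFSet_iff.2 hτ, f, h1, h2, fun b hb => ?_⟩
    obtain ⟨a, ha, h⟩ := h3 b hb
    exact ⟨a.toZFSet, toZFSet_mem_toZFSet_iff.2 ha, h⟩
  · rintro ⟨t, ht, f, h1, h2, h3⟩
    obtain ⟨τ, hτ, rfl⟩ := mem_toZFSet_iff.1 ht
    refine ⟨τ, hτ, f, h1, h2, fun b hb => ?_⟩
    obtain ⟨a, ha, h⟩ := h3 b hb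
    obtain ⟨a, ha', rfl⟩ := mem_toZFSet_iff.1 ha
    exact ⟨a, ha', h⟩

theorem dz_PZ (i j k : ℕ) : DZ.{u} fun v => PZ (v i) (v j) (v k) := by
  refine DZ.and (Loc.sub k j).dz (DZ.exMem i (DZ.ex (DZ.and (Pool.Agent.H3.HD.DM.dz_hod 0)
    (DZ.and (loc_func 1 (k + 2) 0).dz ?_))))
  exact DZ.allMem (k + 2) (DZ.exMem 2 (loc_pmem 0 1 2).dz)

theorem dz_pk (κ lam : Ordinal.{u}) (i : ℕ) : DZ.{u} fun v => v i ∈ PkHOD κ lam := by
  refine (DZ.od (R := fun k v => PZ k lam.toZFSet (v i)) (OD.ordinal κ)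
    (DZ.od (R := fun l v => PZ (v 0) l (v (i + 1))) (OD.ordinal lam) (dz_PZ 1 0 (i + 2)))).congr
    fun v => mem_pk

theorem hod_of_mem {κ lam : Ordinal.{u}} {x : ZFSet.{u}} (hx : x ∈ PkHOD κ lam) : HOD x := by
  rw [mem_pk] at hx
  obtain ⟨h1, t, ht, f, hf, hfn, h2⟩ := hx
  refine HOD.of_sub ?_ h1
  refine OD.of_mem (P := fun v => ∃ a, ZFSet.pair a (v 0) ∈ f) ?_ fun v => ?_
  · refine DZ.od (R := fun f v => ∃ a, ZFSet.pair a (v 0) ∈ f) hf.od ?_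
    exact DZ.ex (R := fun a v => ZFSet.pair a (v 1) ∈ v 0) (loc_pmem 0 2 1).dz
  · constructor
    · rintro ⟨a, ha⟩
      exact (ZFSet.pair_mem_prod.1 (hfn.1 ha)).2
    · intro hv
      obtain ⟨a, -, ha⟩ := h2 _ hv
      exact ⟨a, ha⟩

theorem hod_sub {κ lam : Ordinal.{u}} {x : ZFSet.{u}} (h : OD x) (hx : x ⊆ PkHOD κ lam) :
    HOD x := hod_iff.2 ⟨h, fun _ hy => hod_of_mem (hx hy)⟩

theorem od_diff {κ lam : Ordinal.{u}} {x : ZFSet.{u}} (h : OD x) : OD (PkHOD κ lam \ x) := by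
  refine OD.of_mem (P := fun v => v 0 ∈ PkHOD κ lam ∧ ¬ v 0 ∈ x) ?_ fun v => ?_
  · exact (dz_pk κ lam 0).and (DZ.od (R := fun x v => ¬ v 0 ∈ x) h (DZ.mem 1 0).not)
  · rw [ZFSet.mem_sdiff]

/-- positivity for fixed ordinals -/
theorem posDO (μ κ : Ordinal.{u}) {X : Ordinal.{u} → (ℕ → Ordinal.{u}) → Prop}
    (hX : DO fun w => X (w 0) (fun n => w (n + 1))) : DO fun w => Pos μ κ {a | X a w} := by
  refine DO.sub μ (R := fun m w => Pos m κ {a | X a w}) ?_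
  refine DO.sub κ (R := fun k w => Pos (w 0) k {a | X a (fun n => w (n + 1))}) ?_
  refine HD.All.da 1 0 (fun a w => X a (fun n => w (n + 2))) ?_
  exact hX.ren (fun n => Nat.casesOn n 0 fun m => m + 3)

/-- membership of the sets of the family in coded sets -/
theorem do_mem {en : Ordinal.{u} → ZFSet.{u}} (hen : EN en)
    {x : Ordinal.{u} → Ordinal.{u} → Prop} (hx : DR x) (lam : Ordinal.{u}) :
    DO fun w => os lam {i | x (w 0) i} ∈ en (w 1) := by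
  have h1 : DO fun w => os (w 0) {i | x (w 1) i} ∈ en (w 2) := by
    refine (DO.setArg (R := fun s v => ∃ y, ((v 2).IsOrdinal ∧ y = en (v 2).rank) ∧ s ∈ y)
      (X := fun i w => x (w 1) i) ?_ ?_ 0).congr fun w => ?_
    · refine DZ.ex (R := fun y v => ((v 3).IsOrdinal ∧ y = en (v 3).rank) ∧ v 0 ∈ y) ?_
      refine DZ.and ?_ (DZ.mem 1 0)
      exact (hen.dz).ren fun n => if n = 0 then 4 else 0
    · exact DO.s2 (X := fun a b => x a b) hx 2 0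
    · constructor
      · intro h
        refine ⟨en (w 2), ⟨ZFSet.isOrdinal_toZFSet _, ?_⟩, h⟩
        show en (w 2) = en ((w 2).toZFSet).rank
        rw [rank_toZFSet]
      · rintro ⟨y, ⟨-, rfl⟩, h⟩
        have h2 : ((w 2).toZFSet).rank = w 2 := rank_toZFSet _
        have h3 : os (w 0) {i | x (w 1) i} ∈ en ((w 2).toZFSet).rank := h
        rwa [h2] at h3
  exact DO.sub lam (R := fun l w => os l {i | x (w 0) i} ∈ en (w 1)) h1

/-- the fine ultrafilter -/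
noncomputable def Uf (en : Ordinal.{u} → ZFSet.{u}) (μ κ lam c : Ordinal.{u})
    (x : Ordinal.{u} → Ordinal.{u} → Prop) : ZFSet.{u} :=
  ZFSet.sep (fun X => OD X ∧ ¬ Pos μ lam {β | β ∈ E en c ∧ os lam {i | x β i} ∉ X})
    (ZFSet.powerset (PkHOD κ lam))

theorem mem_Uf {en : Ordinal.{u} → ZFSet.{u}} {μ κ lam c : Ordinal.{u}}
    {x : Ordinal.{u} → Ordinal.{u} → Prop} {X : ZFSet.{u}} :
    X ∈ Uf en μ κ lam c x ↔ X ⊆ PkHOD κ lam ∧ OD X ∧
      ¬ Pos μ lam {β | β ∈ E en c ∧ os lam {i | x β i} ∉ X} := by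
  unfold Uf
  rw [ZFSet.mem_sep, ZFSet.mem_powerset]

theorem od_Uf {en : Ordinal.{u} → ZFSet.{u}} (hen : EN en) (μ κ lam c : Ordinal.{u})
    {x : Ordinal.{u} → Ordinal.{u} → Prop} (hx : DR x) : OD (Uf en μ κ lam c x) := by
  have hE := (HD.All.ea en hen).1
  have h1 : DO fun w => ¬ Pos μ lam {β | β ∈ E en c ∧ os lam {i | x β i} ∉ en (w 0)} := by
    refine (posDO μ lam (X := fun β w => β ∈ E en c ∧ os lam {i | x β i} ∉ en (w 0)) ?_).not
    refine DO.and ?_ (do_mem hen hx lam).not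
    exact DO.sub c (R := fun c w => w 0 ∈ E en c) (hE.s2 (X := fun x y => x ∈ E en y) 1 0)
  obtain ⟨Q, hQ, hQ'⟩ := h1
  refine OD.of_mem (P := fun v => v 0 ⊆ PkHOD κ lam ∧ ∃ z, (z.IsOrdinal ∧ v 0 = en z.rank) ∧
    Q (fun _ => z)) ?_ fun v => ?_
  · refine DZ.and ?_ ?_
    · refine (DZ.allMem (R := fun y _ => y ∈ PkHOD κ lam) 0 (dz_pk κ lam 0)).congr fun v => ?_
      rw [ZFSet.subset_def]
    · refine DZ.ex (R := fun z v => (z.IsOrdinal ∧ v 0 = en z.rank) ∧ Q (fun _ => z)) ?_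
      exact (hen.dz).and (hQ.ren fun _ => 0)
  · rw [mem_Uf]
    refine and_congr_right fun _ => ?_
    constructor
    · rintro ⟨z, ⟨hz, h2⟩, h3⟩
      refine ⟨(hen.od _).2 ⟨z.rank, h2.symm⟩, ?_⟩
      have h4 : z = z.rank.toZFSet := hz.toZFSet_rank_eq.symm
      rw [h4] at h3
      have h5 := (hQ' (fun _ => z.rank)).2 h3
      rw [h2]
      exact h5
    · rintro ⟨h2, h3⟩
      obtain ⟨c', hc'⟩ := (hen.od _).1 h2
      refine ⟨c'.toZFSet, ⟨ZFSet.isOrdinal_toZFSet c', by rw [rank_toZFSet, hc']⟩, ?_⟩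
      refine (hQ' (fun _ => c')).1 ?_
      rw [← hc'] at h3
      exact h3

theorem X : T_FU.{u} := by
  intro en hen M κ lam c x hcof hc hfam
  have hVA := HD.All.va.{u}
  have hE := (HD.All.ea en hen).1
  refine ⟨Uf en M.ord κ lam c x, ?_, ?_, ?_, ?_, ?_, ?_⟩
  · -- hod
    refine hod_iff.2 ⟨od_Uf hen _ _ _ _ hfam.dr, fun y hy => ?_⟩
    rw [mem_Uf] at hy
    exact hod_sub hy.2.1 hy.1
  · -- sub
    intro y hy
    exact (mem_Uf.1 hy).1
  · -- ultra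
    intro y hy hyk
    constructor
    · intro h1 h2
      rw [mem_Uf] at h1 h2
      refine null_union hVA hcof h1.2.2 h2.2.2 (hc.pos.mono fun b hb hbE _ => ?_)
      by_cases hby : os lam {i | x b i} ∈ y
      · exact Or.inr ⟨hbE, fun h3 => (ZFSet.mem_sdiff.1 h3).2 hby⟩
      · exact Or.inl ⟨hbE, hby⟩
    · intro h1
      refine mem_Uf.2 ⟨hyk, hy.od, fun h3 => ?_⟩
      have h2 : Pos M.ord lam {β | β ∈ E en c ∧ os lam {i | x β i} ∉ PkHOD κ lam \ y} := by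
        by_contra h3
        exact h1 (mem_Uf.2 ⟨fun z hz => (ZFSet.mem_sdiff.1 hz).1, od_diff hy.od, h3⟩)
      have h4 := pos_diff hVA hcof h2 hfam.small
      obtain ⟨z, hz⟩ := (hen.od _).1 hy.od
      have hDS : DS {β | os lam {i | x β i} ∈ y} := by
        rw [← hz]
        exact DO.sub z (R := fun z w => os lam {i | x (w 0) i} ∈ en z)
          ((do_mem hen hfam.dr lam).s2 (X := fun a b => os lam {i | x a i} ∈ en b) 1 0)
      obtain ⟨e, he⟩ := (HD.All.ea en hen).2.2.1 _ hDS lam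
      refine hc.ult e ⟨h4.mono fun b hb hbE _ => ⟨hbE.1.1, ?_⟩,
        h3.mono fun b hb hbE _ => ⟨hbE.1, fun h5 => ?_⟩⟩
      · rw [he]
        refine ⟨?_, hb⟩
        by_contra h5
        have h6 : os lam {i | x b i} ∈ PkHOD κ lam := by
          by_contra h7
          exact hbE.2 ⟨hbE.1.1, h7⟩
        exact hbE.1.2 (ZFSet.mem_sdiff.2 ⟨h6, h5⟩)
      · rw [he] at h5
        exact hbE.2 h5.1
  · -- up
    intro y hy z hz hyz hzk
    rw [mem_Uf] at hy ⊢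
    exact ⟨hzk, hz.od, fun h1 => hy.2.2 (h1.mono fun b _ hb _ => ⟨hb.1, fun h2 =>
      hb.2 (hyz h2)⟩)⟩
  · -- fine
    intro a ha
    refine mem_Uf.2 ⟨fun z hz => (ZFSet.mem_sep.1 hz).1, ?_, fun h => ?_⟩
    · refine OD.of_mem (P := fun v => v 0 ∈ PkHOD κ lam ∧ a.toZFSet ∈ v 0) ?_ fun v => ?_
      · exact (dz_pk κ lam 0).and (DZ.od (R := fun a v => a ∈ v 0) (OD.ordinal a) (DZ.mem 0 1))
      · rw [ZFSet.mem_sep]
    · refine null_union hVA hcof hfam.small (hfam.fine a ha) (h.mono fun b hb hbE _ => ?_)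
      by_cases h1 : os lam {i | x b i} ∈ PkHOD κ lam
      · refine Or.inr ⟨hbE.1, fun h2 => hbE.2 (ZFSet.mem_sep.2 ⟨h1, ?_⟩)⟩
        exact ord_mem_os.2 ⟨ha, h2⟩
      · exact Or.inl ⟨hbE.1, h1⟩
  · -- compl
    intro τ hτ f hf hfn
    refine mem_Uf.2 ⟨fun z hz => (ZFSet.mem_sep.1 hz).1, ?_, fun h => ?_⟩
    · refine OD.of_mem (P := fun v => v 0 ∈ PkHOD κ lam ∧ ∀ a, ∀ x, ZFSet.pair a x ∈ f →
        v 0 ∈ x) ?_ fun v => ?_
      · refine (dz_pk κ lam 0).and ?_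
        refine DZ.od (R := fun F v => ∀ a, ∀ x, ZFSet.pair a x ∈ F → v 0 ∈ x) hf.od ?_
        refine DZ.all (R := fun a v => ∀ x, ZFSet.pair a x ∈ v 0 → v 1 ∈ x) ?_
        refine DZ.all (R := fun x v => ZFSet.pair (v 0) x ∈ v 1 → v 2 ∈ x) ?_
        exact (loc_pmem 1 0 2).dz.imp (DZ.mem 3 0)
      · rw [ZFSet.mem_sep]
    · have h1 := hVA M.ord lam hcof τ (Cardinal.lt_ord.1 hτ)
        (fun i => {b | b ∈ E en c ∧ ∃ y, ZFSet.pair i.toZFSet y ∈ f ∧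
          os lam {i | x b i} ∉ y}) (fun i hi => by
          obtain ⟨y, hy, huy⟩ := hfn.2 i.toZFSet (toZFSet_mem_toZFSet_iff.2 hi)
          have hyU : y ∈ Uf en M.ord κ lam c x := (ZFSet.pair_mem_prod.1 (hfn.1 hy)).2
          rw [mem_Uf] at hyU
          intro hP
          refine hyU.2.2 (hP.mono fun b hb hbE _ => ⟨hbE.1, fun h3 => ?_⟩)
          obtain ⟨-, y', hy', hby'⟩ := hbE
          rw [huy y' hy'] at hby'
          exact hby' h3)
      refine null_union hVA hcof hfam.small h1 (h.mono fun b hb hbE _ => ?_)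
      by_cases h2 : os lam {i | x b i} ∈ PkHOD κ lam
      · right
        by_contra hcon
        refine hbE.2 (ZFSet.mem_sep.2 ⟨h2, fun a y hp => ?_⟩)
        have hp' := ZFSet.pair_mem_prod.1 (hfn.1 hp)
        obtain ⟨a, ha', rfl⟩ := mem_toZFSet_iff.1 hp'.1
        by_contra hby
        exact hcon ⟨a, ha', hbE.1, y, hp, hby⟩
      · exact Or.inl ⟨hbE.1, h2⟩

end Pool.Agent.H4.HD.FU
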